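import Pool.Agent.Lib.MP_8cf263_co.DioPolytopes

/-!
# Problem MP_8cf263_co, Question Q1: dilates of polytopes with rational or Diophantine facet normals

Let `Q = {y : |h_j y| ≤ b_j for all j}` be a bounded polytope in `ℝ^n`, `n ≥ 2`, with real vectors
`h_j` and real numbers `b_j > 0`, every `j` defining a facet, and let every `h_j` be either a real
multiple of an integer vector or Diophantine: `c₀ ≤ |h_j z| (∑ |z_i|)^A` for all nonzero `z ∈ Z^n`,
with some `c₀ > 0` and `A` that may depend on `j`. For all large real `lam` and all `c ∈ Z^n` the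
lattice points `K` of `(c + lam Q) / 2` are determined up to translation among all centrally symmetric
convex lattice sets by the numbers of points of their projections.
-/

set_option autoImplicit false

namespace Pool.Agent.Results.MP_8cf263_co.DioPolytopes

open Pool.Agent.Lib.MP_8cf263_co

theorem result (n : ℕ) (hn : 2 ≤ n) (m : ℕ) (h : Fin m → Fin n → ℝ) (b : Fin m → ℝ)
    (hb : ∀ j, 0 < b j)
    (hfac : ∀ j, ∃ g : Fin n → ℝ, ∑ i, h j i * g i = b j ∧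
      ∀ l, l ≠ j → |∑ i, h l i * g i| < b l)
    (hbd : ∃ ρ : ℝ, ∀ y : Fin n → ℝ, (∀ j, |∑ i, h j i * y i| ≤ b j) → ∀ i, |y i| ≤ ρ)
    (hnorm : ∀ j, (∃ (t : ℝ) (k : Fin n → ℤ), ∀ i, h j i = t * k i) ∨
      ∃ (c₀ : ℝ) (A : ℕ), 0 < c₀ ∧ ∀ z : Fin n → ℤ, z ≠ 0 →
        c₀ ≤ |∑ i, h j i * z i| * (∑ i, |(z i : ℝ)|) ^ A) :
    ∃ lam₀ : ℝ, ∀ lam : ℝ, lam₀ ≤ lam → ∀ (c : Fin n → ℤ) (K L : Finset (Fin n → ℤ)),
      (∀ x : Fin n → ℤ, x ∈ K ↔ ∀ j, |∑ i, h j i * ((2 * x i - c i : ℤ) : ℝ)| ≤ lam * b j) →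
      (∀ x : Fin n → ℤ, (fun i => (x i : ℝ)) ∈
        convexHull ℝ ((fun y : Fin n → ℤ => fun i => (y i : ℝ)) '' (L : Set (Fin n → ℤ))) →
        x ∈ L) →
      (∃ c' : Fin n → ℤ, ∀ x : Fin n → ℤ, x ∈ L ↔ c' - x ∈ L) →
      (∀ u : Fin n → ℤ, u ≠ 0 →
        (K.image (fun x => (∑ i, u i * u i) • x - (∑ i, u i * x i) • u)).card =
        (L.image (fun x => (∑ i, u i * u i) • x - (∑ i, u i * x i) • u)).card) →
      ∃ v : Fin n → ℤ, L = K.image (fun x => x + v) := by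
  obtain ⟨ρ, hρ⟩ := hbd
  obtain ⟨lam₀, h₁⟩ := dio_polytopes hn h b hb hfac hρ (fun j => by
    rcases hnorm j with ⟨t, k, hk⟩ | hk
    · exact Or.inl ⟨t, k, funext hk⟩
    · exact Or.inr hk)
  exact ⟨lam₀, fun lam hlam c K L hK hL hLc hproj => h₁ lam hlam c K L hK hL hLc hproj⟩

end Pool.Agent.Results.MP_8cf263_co.DioPolytopes
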