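import Pool.Agent.Lib.MP_8cf263_co.Even

/-!
# Problem MP_8cf263_co, Question Q1: sets of even cardinality

Let `K`, `L` be centrally symmetric convex lattice sets in `Z^n`, `n ≥ 2`, with equally many points in
all projections onto lattice hyperplanes, and let `|K|` be even. After a translation `K` and `L` have
the same centre and contain the same points visible from the centre, and `L` is a translate of `K` if
`K` lies in the convex hull of its visible points.
-/

set_option autoImplicit false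

namespace Pool.Agent.Results.MP_8cf263_co.EvenCardinality

open Pool.Agent.Lib.MP_8cf263_co

theorem result (n : ℕ) (hn : 2 ≤ n) (K L : Finset (Fin n → ℤ))
    (hK : ∀ x : Fin n → ℤ, (fun i => (x i : ℝ)) ∈
      convexHull ℝ ((fun y : Fin n → ℤ => fun i => (y i : ℝ)) '' (K : Set (Fin n → ℤ))) → x ∈ K)
    (hL : ∀ x : Fin n → ℤ, (fun i => (x i : ℝ)) ∈
      convexHull ℝ ((fun y : Fin n → ℤ => fun i => (y i : ℝ)) '' (L : Set (Fin n → ℤ))) → x ∈ L)
    (c : Fin n → ℤ) (hKc : ∀ x : Fin n → ℤ, x ∈ K ↔ c - x ∈ K)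
    (hLc : ∃ c' : Fin n → ℤ, ∀ x : Fin n → ℤ, x ∈ L ↔ c' - x ∈ L)
    (heven : Even K.card)
    (hproj : ∀ u : Fin n → ℤ, u ≠ 0 →
      (K.image (fun x => (∑ i, u i * u i) • x - (∑ i, u i * x i) • u)).card =
      (L.image (fun x => (∑ i, u i * u i) • x - (∑ i, u i * x i) • u)).card) :
    ∃ v : Fin n → ℤ,
      (∀ x : Fin n → ℤ, (∀ d : ℤ, (∀ i, d ∣ 2 * x i - c i) → IsUnit d) → (x ∈ K ↔ x + v ∈ L)) ∧
      ((∀ x ∈ K, (fun i => (x i : ℝ)) ∈ convexHull ℝ ((fun y : Fin n → ℤ => fun i => (y i : ℝ)) ''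
        {y : Fin n → ℤ | y ∈ K ∧ ∀ d : ℤ, (∀ i, d ∣ 2 * y i - c i) → IsUnit d})) →
        L = K.image (fun x => x + v)) := by
  obtain ⟨c', hLc⟩ := hLc
  obtain ⟨hcard, v, hv⟩ := visible hn hK hL hKc hLc heven hproj
  exact ⟨v, hv, fun h => unique hL hcard hv h⟩

end Pool.Agent.Results.MP_8cf263_co.EvenCardinality
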