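import Pool.Agent.Lib.MP_8cf263_co.Large

/-!
# Problem MP_8cf263_co, Question Q1: sets cut out by large faces

Let `K`, `L` be centrally symmetric convex lattice sets in `Z^n`, `n ≥ 2`, with equally many points
in all projections onto lattice hyperplanes, `K` of full dimension, and let `R` be the maximal
difference of coordinates of points of `K`. If every lattice point outside `K` is cut off by a face of
`conv K` with at least `C R^(1/k)` lattice points, `C = C(n, k)`, then `L` is a translate of `K`.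
-/

set_option autoImplicit false

namespace Pool.Agent.Results.MP_8cf263_co.LargeFaces

open Pool.Agent.Lib.MP_8cf263_co

theorem result (n : ℕ) (hn : 2 ≤ n) (k : ℕ) (hk : 1 ≤ k) :
    ∃ C : ℕ, ∀ K L : Finset (Fin n → ℤ),
      (∀ x : Fin n → ℤ, (fun i => (x i : ℝ)) ∈
        convexHull ℝ ((fun y : Fin n → ℤ => fun i => (y i : ℝ)) '' (K : Set (Fin n → ℤ))) →
        x ∈ K) →
      (∀ x : Fin n → ℤ, (fun i => (x i : ℝ)) ∈
        convexHull ℝ ((fun y : Fin n → ℤ => fun i => (y i : ℝ)) '' (L : Set (Fin n → ℤ))) →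
        x ∈ L) →
      affineSpan ℝ ((fun y : Fin n → ℤ => fun i => (y i : ℝ)) '' (K : Set (Fin n → ℤ))) = ⊤ →
      (∃ c : Fin n → ℤ, ∀ x : Fin n → ℤ, x ∈ K ↔ c - x ∈ K) →
      (∃ c : Fin n → ℤ, ∀ x : Fin n → ℤ, x ∈ L ↔ c - x ∈ L) →
      (∀ u : Fin n → ℤ, u ≠ 0 →
        (K.image (fun x => (∑ i, u i * u i) • x - (∑ i, u i * x i) • u)).card =
        (L.image (fun x => (∑ i, u i * u i) • x - (∑ i, u i * x i) • u)).card) →
      ∀ R T : ℕ, (∀ x ∈ K, ∀ y ∈ K, ∀ i, |x i - y i| ≤ (R : ℤ)) → C * R ≤ T ^ k →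
      (∀ w : Fin n → ℤ, w ∉ K → ∃ (h : Fin n → ℝ) (β : ℝ),
        (∀ x ∈ K, ∑ i, h i * (x i : ℝ) ≤ β) ∧ β < ∑ i, h i * (w i : ℝ) ∧
        ∃ F : Finset (Fin n → ℤ), (∀ x ∈ F, x ∈ K ∧ ∑ i, h i * (x i : ℝ) = β) ∧ T ≤ F.card) →
      ∃ v : Fin n → ℤ, L = K.image (fun x => x + v) := by
  refine ⟨CL n k, ?_⟩
  rintro K L hK hL htop ⟨c, hc⟩ ⟨c', hc'⟩ hpr R T hR hRT hsep
  exact large_faces hn (by omega) hK hL htop hc hc' hpr hR hRT hsep

end Pool.Agent.Results.MP_8cf263_co.LargeFaces
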