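import Pool.Agent.Lib.MP_8cf263_co.RoundSpot

/-!
# Problem MP_8cf263_co, Question Q1: bodies with one round spot

Let `n ≥ 2` and let `N` be a norm on `ℝ^n` such that on some nonempty open set the second differences
of `N ^ 2` lie between two positive multiples of the squared Euclidean length of the step. (This holds
if `N ^ 2` is twice continuously differentiable near one point with a positive definite second
derivative there; nothing is assumed about the rest of the unit sphere.) Then for all large `lam` and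
all `c ∈ Z^n` the lattice set `K = {x ∈ Z^n : N (2 x - c) ≤ lam}` is determined up to translation by
the numbers of points of its projections onto all lattice hyperplanes, among all centrally symmetric
convex lattice sets.
-/

set_option autoImplicit false

namespace Pool.Agent.Results.MP_8cf263_co.RoundSpot

open Pool.Agent.Lib.MP_8cf263_co

theorem result (n : ℕ) (hn : 2 ≤ n) (N : (Fin n → ℝ) → ℝ)
    (h0 : ∀ x, N x = 0 → x = 0) (hsm : ∀ (t : ℝ) (x : Fin n → ℝ), N (t • x) = |t| * N x)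
    (htri : ∀ x y, N (x + y) ≤ N x + N y)
    (U : Set (Fin n → ℝ)) (hU : IsOpen U) (hne : U.Nonempty) (μ M : ℝ) (hμ : 0 < μ)
    (hpin : ∀ x y, x ∈ U → x + y ∈ U → x - y ∈ U →
      2 * μ * ∑ i, y i ^ 2 ≤ N (x + y) ^ 2 + N (x - y) ^ 2 - 2 * N x ^ 2 ∧
      N (x + y) ^ 2 + N (x - y) ^ 2 - 2 * N x ^ 2 ≤ 2 * M * ∑ i, y i ^ 2) :
    ∃ lam₀ : ℝ, ∀ lam : ℝ, lam₀ ≤ lam → ∀ (c : Fin n → ℤ) (K L : Finset (Fin n → ℤ)),
      (∀ x : Fin n → ℤ, x ∈ K ↔ N (fun i => ((2 * x i - c i : ℤ) : ℝ)) ≤ lam) →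
      (∀ x : Fin n → ℤ, (fun i => (x i : ℝ)) ∈
        convexHull ℝ ((fun y : Fin n → ℤ => fun i => (y i : ℝ)) '' (L : Set (Fin n → ℤ))) →
        x ∈ L) →
      (∃ c' : Fin n → ℤ, ∀ x : Fin n → ℤ, x ∈ L ↔ c' - x ∈ L) →
      (∀ u : Fin n → ℤ, u ≠ 0 →
        (K.image (fun x => (∑ i, u i * u i) • x - (∑ i, u i * x i) • u)).card =
        (L.image (fun x => (∑ i, u i * u i) • x - (∑ i, u i * x i) • u)).card) →
      ∃ v : Fin n → ℤ, L = K.image (fun x => x + v) := by
  obtain ⟨lam₀, h⟩ := round_spot_thm hn N h0 hsm htri U hU hne μ M hμ hpin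
  exact ⟨lam₀, fun lam hlam c K L hK hL hLc hproj => h lam hlam c K L hK hL hLc hproj⟩

end Pool.Agent.Results.MP_8cf263_co.RoundSpot
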